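import Pool.Agent.helper53.ORT.Spec

set_option autoImplicit false

namespace Pool.Agent.ORT

open Module Pool.Agent.GS

theorem EV0_dr {F E : Type} [Field F] [Field E] (f : F →+* E) (T : F) (h : E) (hh0 : h ≠ 0)
    (hh : h + h⁻¹ = f T) (hord : 2 ∣ orderOf h) : Dr 2 T := by
  intro M hdet htr j hM
  set N : Matrix (Fin 2) (Fin 2) E := M.map f with hN
  have hdN : N.det = 1 := by
    have h1 : N.det = f M.det := by
      rw [hN, RingHom.map_det]; rfl
    rw [h1, hdet, map_one]
  have htN : N 0 0 + N 1 1 = f T := by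
    have h1 : M 0 0 + M 1 1 = T := by rw [← htr, Matrix.trace_fin_two]
    have h2 := congrArg f h1
    rw [map_add] at h2
    exact h2
  have hdd : N 0 0 * N 1 1 - N 0 1 * N 1 0 = 1 := by rw [← hdN, Matrix.det_fin_two]
  have hsq : h ^ 2 - f T * h + 1 = 0 := by
    have h1 : (h + h⁻¹) * h = f T * h := by rw [hh]
    rw [add_mul, inv_mul_cancel₀ hh0] at h1
    rw [← h1]; ring
  have hdet0 : (h • (1 : Matrix (Fin 2) (Fin 2) E) - N).det = 0 := by
    rw [Matrix.det_fin_two]
    simp only [Matrix.sub_apply, Matrix.smul_apply, Matrix.one_apply_eq, smul_eq_mul, mul_one]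
    rw [Matrix.one_apply_ne (by decide), Matrix.one_apply_ne (by decide)]
    have : (h - N 0 0) * (h - N 1 1) - (h * 0 - N 0 1) * (h * 0 - N 1 0) =
        h ^ 2 - (N 0 0 + N 1 1) * h + (N 0 0 * N 1 1 - N 0 1 * N 1 0) := by ring
    rw [this, htN, hdd, hsq]
  obtain ⟨v, hv0, hv⟩ := Matrix.exists_mulVec_eq_zero_iff.2 hdet0
  have hev : N.mulVec v = h • v := by
    rw [Matrix.sub_mulVec, Matrix.smul_mulVec, Matrix.one_mulVec, sub_eq_zero] at hv
    exact hv.symm
  have hpow : ∀ n : ℕ, (N ^ n).mulVec v = h ^ n • v := by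
    intro n
    induction n with
    | zero => rw [pow_zero, pow_zero, Matrix.one_mulVec, one_smul]
    | succ n ih =>
      rw [pow_succ', ← Matrix.mulVec_mulVec, ih, Matrix.mulVec_smul, hev, smul_smul, pow_succ]
  have hNj : N ^ j = 1 := by
    have h1 : N ^ j = f.mapMatrix (M ^ j) := by
      rw [map_pow]; rfl
    rw [h1, hM, map_one]
  have hhj : h ^ j = 1 := by
    have h1 := hpow j
    rw [hNj, Matrix.one_mulVec] at h1
    obtain ⟨i, hi⟩ := Function.ne_iff.1 hv0
    have h2 := congrFun h1 i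
    simp only [Pi.smul_apply, smul_eq_mul] at h2
    have h3 : h ^ j * v i = 1 * v i := by rw [one_mul]; exact h2.symm
    exact mul_right_cancel₀ hi h3
  exact hord.trans (orderOf_dvd_of_pow_eq_one hhj)

theorem EV0_not_sq {K : Type} [Field K] [Finite K] (g : K) (hg0 : g ≠ 0)
    (hodd : Nat.card K % 2 = 1)
    (hg : orderOf g = Nat.card K - 1) (hQ : 3 ≤ Nat.card K) : ¬ IsSquare g := by
  rintro ⟨t, ht⟩
  have ht0 : t ≠ 0 := by
    intro h
    rw [h, mul_zero] at ht
    exact hg0 ht
  have := Fintype.ofFinite K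
  have h1 : t ^ (Nat.card K - 1) = 1 := by
    rw [Nat.card_eq_fintype_card]
    exact FiniteField.pow_card_sub_one_eq_one t ht0
  obtain ⟨c, hc⟩ : ∃ c, Nat.card K - 1 = 2 * c := ⟨(Nat.card K - 1) / 2, by omega⟩
  have h2 : g ^ c = 1 := by
    rw [ht, ← pow_two, ← pow_mul, ← hc, h1]
  have h3 := orderOf_dvd_of_pow_eq_one h2
  rw [hg, hc] at h3
  have h4 := Nat.le_of_dvd (by omega) h3
  omega

theorem EV0 (ef : GS.EF_stmt) : EV0_stmt := by
  intro F _ _ hF κ hκ0
  obtain ⟨K, E, iK, iE, aFK, aKE, fK, fE, hrk, hcard, ⟨g, hg0, hg⟩, ⟨g', hg'0, hg'⟩, hfix⟩ :=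
    ef (F := F) 1 le_rfl
  rw [pow_one] at hcard
  have hbij : Function.Bijective (algebraMap F K) :=
    Function.Injective.bijective_of_nat_card_le (algebraMap F K).injective
      (le_of_eq hcard)
  set Q := Nat.card K with hQ
  have := Fintype.ofFinite K
  have := Fintype.ofFinite F
  have hQc : Fintype.card K = Q := by rw [hQ, Nat.card_eq_fintype_card]
  have hFc : Fintype.card F = Q := by rw [hcard, Nat.card_eq_fintype_card]
  have hodd : Q % 2 = 1 := by
    rw [← hFc]
    exact FiniteField.odd_card_of_char_ne_two hF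
  have hQ1 : 1 < Q := by
    rw [← hQc]
    exact Fintype.one_lt_card
  have hQ3 : 3 ≤ Q := by omega
  by_cases hsqκ : IsSquare κ
  · -- square
    obtain ⟨φ, hφ⟩ : ∃ φ : E →+* E, ∀ x, φ x = x ^ Q := by
      refine ⟨(FiniteField.frobeniusAlgHom K E : E →ₐ[K] E), fun x => ?_⟩
      rw [← hQc]
      rfl
    have hsq : Q ^ 2 - 1 = (Q + 1) * (Q - 1) := by
      obtain ⟨t, ht⟩ : ∃ t, Q = t + 1 := ⟨Q - 1, by omega⟩
      rw [ht]
      simp only [Nat.add_sub_cancel]
      have : (t + 1) ^ 2 = (t + 1 + 1) * t + 1 := by ring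
      omega
    have hg1 : orderOf g ≠ 0 := by
      rw [hg, hsq]
      exact Nat.mul_ne_zero (by omega) (by omega)
    set k : E := g ^ ((Q - 1) / 2) with hk
    have hk0 : k ≠ 0 := pow_ne_zero _ hg0
    have hk2 : k ^ 2 = g ^ (Q - 1) := by
      rw [hk, ← pow_mul]
      congr 1
      omega
    have hord : orderOf (k ^ 2) = Q + 1 := by
      have h1 : Q - 1 = orderOf g / (Q + 1) := by
        rw [hg, hsq, Nat.mul_div_cancel_left _ (by omega)]
      rw [hk2, h1]
      exact orderOf_pow_orderOf_div hg1 (by rw [hg, hsq]; exact dvd_mul_right _ _)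
    have hk1 : k ^ 2 ≠ 1 := by
      intro h
      rw [h, orderOf_one] at hord
      omega
    have hneg : k ^ (Q + 1) = -1 := by
      have h1 : k ^ (Q + 1) * k ^ (Q + 1) = 1 := by
        rw [← mul_pow, ← sq, ← hord, pow_orderOf_eq_one]
      rcases mul_self_eq_one_iff.mp h1 with h | h
      · exfalso
        have h2 : orderOf g ∣ ((Q - 1) / 2) * (Q + 1) := by
          rw [orderOf_dvd_iff_pow_eq_one, pow_mul]
          exact h
        have h3 := Nat.le_of_dvd (Nat.mul_pos (by omega) (by omega)) h2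
        rw [hg, hsq] at h3
        have h4 : (Q + 1) * ((Q - 1) / 2) < (Q + 1) * (Q - 1) :=
          Nat.mul_lt_mul_of_pos_left (by omega) (by omega)
        rw [mul_comm ((Q - 1) / 2)] at h3
        omega
      · exact h
    have hφk : φ k = -k⁻¹ := by
      rw [hφ]
      have : k ^ Q * k = -1 := by rw [← pow_succ]; exact hneg
      field_simp
      exact this
    have hs : φ (k - k⁻¹) = k - k⁻¹ := by
      rw [map_sub, map_inv₀, hφk, neg_inv, inv_inv]
      rw [← neg_inv]
      ring
    obtain ⟨b, hb⟩ := hfix (k - k⁻¹) (by rw [← hφ]; exact hs)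
    obtain ⟨s, rfl⟩ := hbij.2 b
    have hb0 : s ≠ 0 := by
      rintro rfl
      rw [map_zero, map_zero] at hb
      apply hk1
      have h2 : k = k⁻¹ := (sub_eq_zero.mp hb.symm)
      calc k ^ 2 = k * k := sq k
        _ = k * k⁻¹ := by rw [← h2]
        _ = 1 := mul_inv_cancel₀ hk0
    refine ⟨2 + s ^ 2, ?_, ?_, ?_⟩
    · intro h
      have h1 : s ^ 2 = 0 := by linear_combination h
      exact hb0 (pow_eq_zero_iff two_ne_zero |>.mp h1)
    · obtain ⟨u, rfl⟩ := hsqκ
      exact ⟨s * u, by ring⟩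
    · refine EV0_dr ((algebraMap K E).comp (algebraMap F K)) (2 + s ^ 2) (k ^ 2)
        (pow_ne_zero 2 hk0) ?_ (by rw [hord]; omega)
      rw [RingHom.comp_apply, map_add, map_add, map_pow, map_pow, map_ofNat, map_ofNat, hb]
      field_simp
      ring
  · -- nonsquare
    obtain ⟨α, rfl⟩ := hbij.2 g'
    have hα0 : α ≠ 0 := by
      rintro rfl
      exact hg'0 (map_zero _)
    have hα : orderOf α = Q - 1 := by
      rw [← hg']
      exact (orderOf_injective (algebraMap F K : F →* K) hbij.1 α).symm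
    have hα1 : α ≠ 1 := by
      intro h
      rw [h, orderOf_one] at hα
      omega
    have hαns : ¬ IsSquare α :=
      EV0_not_sq α hα0 (by rw [← hcard]; exact hodd) (by rw [← hcard]; exact hα)
        (by rw [← hcard]; exact hQ3)
    have hprod : IsSquare (κ * α) := by
      rw [FiniteField.isSquare_iff hF (mul_ne_zero hκ0 hα0), mul_pow]
      have h1 : κ ^ (Fintype.card F / 2) = -1 := by
        rcases FiniteField.pow_dichotomy hF hκ0 with h | h
        · exact absurd ((FiniteField.isSquare_iff hF hκ0).2 h) hsqκ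
        · exact h
      have h2 : α ^ (Fintype.card F / 2) = -1 := by
        rcases FiniteField.pow_dichotomy hF hα0 with h | h
        · exact absurd ((FiniteField.isSquare_iff hF hα0).2 h) hαns
        · exact h
      rw [h1, h2]
      ring
    have hT : α + α⁻¹ - 2 = (α - 1) ^ 2 / α := by
      field_simp
      ring
    refine ⟨α + α⁻¹, ?_, ?_, ?_⟩
    · intro h
      have h1 : (α - 1) ^ 2 / α = 0 := by rw [← hT, h, sub_self]
      exact (div_ne_zero (pow_ne_zero _ (sub_ne_zero.2 hα1)) hα0) h1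
    · obtain ⟨u, hu⟩ := hprod
      refine ⟨(α - 1) / α * u, ?_⟩
      rw [hT]
      have : (α - 1) / α * u * ((α - 1) / α * u) = ((α - 1) / α) ^ 2 * (u * u) := by ring
      rw [this, ← hu]
      field_simp
    · exact EV0_dr (RingHom.id F) _ α hα0 rfl (by rw [hα]; omega)

end Pool.Agent.ORT
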